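import Pool.Agent.VMX.StmtsA

/-!
# VMX squad, row ZPT: the zoom of a simplex
-/

set_option autoImplicit false

open Matrix Filter Topology

namespace Pool.Agent.VMX.H4

open Pool.Agent.PFS Pool.Agent.PFJ Pool.Agent.NBT Pool.Agent.VMX

theorem zpt (hF : ZpfStmt) : ZptStmt := by
  intro n C Γ hcc K z hz I hI hIc θ g s T L hZ
  have h := hcc.toPCone
  have hzcl : ∀ i, z i ∈ closure C := fun i => hz.1.cl i
  have hu : fS z I ∈ closure C := fS_cl h hzcl I
  have hR : fS z Iᶜ ∈ closure C := fS_cl h hzcl Iᶜ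
  obtain ⟨F1, F2, F3, F4, F5, F6, F7, F8, F9, F10⟩ :=
    hF n C Γ hcc (fS z I) (fS z Iᶜ) hu hR θ g s T L hZ
  have hsF : ∀ i ∈ I, z i ∈ sF C (fS z I) := by
    intro i hi
    refine (fcs n C h (fS z I) hu).2.1 (z i) (hzcl i) 1 ?_
    have h1 : (1 : ℝ) • fS z I - z i = ∑ j ∈ I.erase i, z j := by
      rw [one_smul]
      unfold fS
      rw [← Finset.add_sum_erase I z hi]
      abel
    rw [h1]
    exact h.cl_sum fun j _ => hzcl j
  have hlim : ∀ i, Tendsto (fun k => s k • act (g k)
      ((if i ∈ I then Real.exp (θ k) else 1) • z i)) atTop (𝓝 (zW z I T L i)) := by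
    intro i
    by_cases hi : i ∈ I
    · have h1 := hZ.limL (fun _ => z i) (z i) (fun _ => hsF i hi) tendsto_const_nhds
      simp only [zW, if_pos hi]
      refine h1.congr fun k => ?_
      simp only [act, Matrix.mulVec_smul, smul_smul]
    · have h1 := hZ.limT (fun _ => z i) (z i) tendsto_const_nhds
      simp only [zW, if_neg hi, one_smul]
      exact h1
  have hsI : fS (zW z I T L) I = L (fS z I) := by
    unfold fS
    rw [map_sum]
    exact Finset.sum_congr rfl fun i hi => by simp only [zW, if_pos hi]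
  have hsIc : fS (zW z I T L) Iᶜ = T (fS z Iᶜ) := by
    unfold fS
    rw [map_sum]
    exact Finset.sum_congr rfl fun i hi => by simp only [zW, if_neg (Finset.mem_compl.1 hi)]
  have hsum : ∑ i, zW z I T L i ∈ C := by
    rw [← fS_add_compl (zW z I T L) I, hsI, hsIc]
    exact hZ.sum
  have hWcl : ∀ i, zW z I T L i ∈ closure C := by
    intro i
    by_cases hi : i ∈ I
    · simp only [zW, if_pos hi]
      exact (F5 (z i) (hsF i hi)).2 (hzcl i)
    · simp only [zW, if_neg hi]
      exact F1 (z i) (hzcl i)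
  have homit : ∀ i, ∑ j ∈ Finset.univ.erase i, zW z I T L j ∉ C := by
    intro i hmem
    have h1 : Tendsto (fun k => ∑ j ∈ Finset.univ.erase i, s k • act (g k)
        ((if j ∈ I then Real.exp (θ k) else 1) • z j)) atTop
        (𝓝 (∑ j ∈ Finset.univ.erase i, zW z I T L j)) :=
      tendsto_finsetSum _ fun j _ => hlim j
    obtain ⟨k, hk⟩ := (h1.eventually (h.isOpen.mem_nhds hmem)).exists
    have h2 : ∑ j ∈ Finset.univ.erase i, s k • act (g k)
        ((if j ∈ I then Real.exp (θ k) else 1) • z j) =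
        s k • act (g k) (∑ j, (if j = i then 0 else if j ∈ I then Real.exp (θ k) else 1) • z j) := by
      rw [← Finset.add_sum_erase Finset.univ (fun j => (if j = i then (0 : ℝ) else
        if j ∈ I then Real.exp (θ k) else 1) • z j) (Finset.mem_univ i)]
      simp only [if_true, zero_smul, zero_add]
      rw [← Finset.smul_sum]
      congr 1
      simp only [act]
      rw [Matrix.mulVec_sum]
      refine Finset.sum_congr rfl fun j hj => ?_
      rw [if_neg (Finset.ne_of_mem_erase hj)]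
    have hk' : ∑ j ∈ Finset.univ.erase i, s k • act (g k)
        ((if j ∈ I then Real.exp (θ k) else 1) • z j) ∈ C := hk
    rw [h2, hcc.sact_mem_iff (hZ.mem k) (hZ.pos k)] at hk'
    refine hz.1.bd _ (fun j => ?_) ⟨i, if_pos rfl⟩ hk'
    split_ifs
    · exact le_rfl
    · exact (Real.exp_pos _).le
    · exact zero_le_one
  refine ⟨⟨Pool.Agent.PFS.H60.crt n C h (Fin K) _ hWcl hsum homit, ?_⟩, hlim, hsI, hsIc, ?_⟩
  · intro i
    have hne : zW z I T L i ≠ 0 := by
      intro h0
      apply homit i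
      rw [← Finset.add_sum_erase Finset.univ _ (Finset.mem_univ i), h0, zero_add] at hsum
      exact hsum
    by_cases hi : i ∈ I
    · simp only [zW, if_pos hi]
      exact F8 (z i) (hsF i hi) (hz.2 i)
    · simp only [zW, if_neg hi] at hne ⊢
      exact F9 (z i) (hz.2 i) hne
  · intro E hE v hv hTv
    refine cl_of_eps (f := fS z Iᶜ) fun ε hε => ?_
    obtain ⟨κ, hκ, hcl⟩ := F4 v hTv ε hε
    have hRE : fS z Iᶜ ∈ E := Submodule.sum_mem _ fun i hi => hE.mem i hi
    have hvE : κ⁻¹ • (v + ε • fS z Iᶜ) ∈ E :=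
      E.smul_mem _ (E.add_mem hv (E.smul_mem _ hRE))
    have h1 : κ⁻¹ • (v + ε • fS z Iᶜ) + fS z Iᶜᶜ ∈ closure C := by
      rw [compl_compl]
      have h2 : κ⁻¹ • (v + ε • fS z Iᶜ) + fS z I =
          κ⁻¹ • (v + ε • fS z Iᶜ + κ • fS z I) := by
        rw [smul_add κ⁻¹ (v + ε • fS z Iᶜ), smul_smul, inv_mul_cancel₀ hκ.ne', one_smul]
      rw [h2]
      exact h.cl_smul hcl (inv_pos.2 hκ).le
    have h3 := hE.box _ hvE h1
    have h4 := h.cl_smul h3 hκ.le
    rwa [smul_smul, mul_inv_cancel₀ hκ.ne', one_smul] at h4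

end Pool.Agent.VMX.H4
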